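import Pool.Agent.Lib.MP_96bab1_co.Upper
import Pool.Agent.Lib.MP_96bab1_co.Linear
import Pool.Agent.Lib.MP_96bab1_co.Rate

/-!
Bounds for the asymptotic rate of sequential `k`-IPP codes over a fixed alphabet.
-/

namespace Pool.Agent.Results.MP_96bab1_co.FixedAlphabetBounds

open Filter Topology Pool.Agent.Lib.MP_96bab1_co

lemma logb_upper (k ℓ t : ℕ) (hk : 1 ≤ k) (hℓ : 2 * (ℓ + 1) ≤ 2 * k + t * (k * (k + 1)))
    (q : ℕ) (hq : 2 ≤ q) :
    Real.logb q (maxSize q ℓ k) ≤ t + Real.log ((k : ℝ) + k * (k + 1)) / Real.log q := by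
  have h1 : maxSize q ℓ k ≤ (k + k * (k + 1)) * q ^ t := by
    apply maxSize_le
    intro C hC
    have h2 := card_le_of_isSeqIPP (by omega) hk hℓ C hC
    have h3 : 1 ≤ q ^ t := Nat.one_le_pow _ _ (by omega)
    nlinarith [Nat.mul_le_mul_left (k * (k + 1)) h3]
  have hq1 : (1 : ℝ) < q := by exact_mod_cast (by omega : 1 < q)
  have hlq : 0 < Real.log q := Real.log_pos hq1
  have hkpos : (0 : ℝ) < k := by exact_mod_cast hk
  have hc : (0 : ℝ) < (k : ℝ) + k * (k + 1) := by positivity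
  rw [Real.logb]
  rcases Nat.eq_zero_or_pos (maxSize q ℓ k) with h0 | h0
  · rw [h0]
    simp only [Nat.cast_zero, Real.log_zero, zero_div]
    have : 1 ≤ (k : ℝ) + k * (k + 1) := by
      have : (1 : ℝ) ≤ k := by exact_mod_cast hk
      nlinarith
    have := Real.log_nonneg this
    positivity
  · have h4 : (maxSize q ℓ k : ℝ) ≤ ((k : ℝ) + k * (k + 1)) * (q : ℝ) ^ t := by
      exact_mod_cast h1
    have h5 : Real.log (maxSize q ℓ k) ≤ Real.log ((k : ℝ) + k * (k + 1)) + t * Real.log q := by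
      calc Real.log (maxSize q ℓ k) ≤ Real.log (((k : ℝ) + k * (k + 1)) * (q : ℝ) ^ t) :=
            Real.log_le_log (by exact_mod_cast h0) h4
        _ = _ := by
            rw [Real.log_mul hc.ne' (by positivity), Real.log_pow]
    rw [div_le_iff₀ hlq, add_mul, div_mul_cancel₀ _ hlq.ne']
    linarith

/-- The upper bound on the rate for every length. -/
lemma rate_upper (k ℓ q : ℕ) (hk : 1 ≤ k) (hℓ : 1 ≤ ℓ) (hq : 2 ≤ q) :
    rate q ℓ k ≤ 2 / (k * (k + 1)) +
      (2 + Real.log ((k : ℝ) + k * (k + 1)) / Real.log q) / ℓ := by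
  have hkpos : (0 : ℝ) < k := by exact_mod_cast hk
  have hkk : (0 : ℝ) < k * (k + 1) := by positivity
  have hkk2 : (2 : ℝ) ≤ k * (k + 1) := by
    have : (1 : ℝ) ≤ k := by exact_mod_cast hk
    nlinarith
  have hℓ' : (0 : ℝ) < ℓ := by exact_mod_cast hℓ
  set t := ⌈2 * ((ℓ : ℝ) + 1) / (k * (k + 1))⌉₊ with ht
  have h1 := Nat.le_ceil (2 * ((ℓ : ℝ) + 1) / (k * (k + 1)))
  rw [← ht, div_le_iff₀ hkk] at h1
  have h2 : 2 * (ℓ + 1) ≤ 2 * k + t * (k * (k + 1)) := by
    have h3 : 2 * (ℓ + 1) ≤ t * (k * (k + 1)) := by exact_mod_cast h1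
    omega
  have h3 := logb_upper k ℓ t hk h2 q hq
  have h4 : (t : ℝ) < 2 * ((ℓ : ℝ) + 1) / (k * (k + 1)) + 1 := by
    rw [ht]
    exact Nat.ceil_lt_add_one (by positivity)
  have h5 : 2 * ((ℓ : ℝ) + 1) / (k * (k + 1)) ≤ 2 / (k * (k + 1)) * ℓ + 1 := by
    have h6 : 2 * ((ℓ : ℝ) + 1) / (k * (k + 1)) = 2 / (k * (k + 1)) * ℓ + 2 / (k * (k + 1)) := by
      field_simp
    have h7 : 2 / ((k : ℝ) * (k + 1)) ≤ 1 := by
      rw [div_le_one hkk]; exact hkk2
    linarith
  unfold rate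
  rw [div_le_iff₀ hℓ', add_mul, div_mul_cancel₀ _ hℓ'.ne']
  linarith

/-- The lower bound on the rate for every length. -/
lemma rate_lower (k q : ℕ) (hk : 1 ≤ k) (hq : 2 ≤ q) : ∃ c : ℝ, ∀ ℓ : ℕ, k ≤ ℓ →
    2 / (k * (k + 1)) - 2 * Real.log 2 / Real.log q - c / ℓ ≤ rate q ℓ k := by
  have hkpos : (0 : ℝ) < k := by exact_mod_cast hk
  have hkk : (0 : ℝ) < k * (k + 1) := by positivity
  have hkk2 : (2 : ℝ) ≤ k * (k + 1) := by
    have : (1 : ℝ) ≤ k := by exact_mod_cast hk
    nlinarith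
  -- a prime
  obtain ⟨p, hp, hp1, hp2⟩ := Nat.exists_prime_lt_and_le_two_mul (q / 2) (by omega)
  have hpq : p ≤ q := by omega
  have hqp : q ≤ 2 * p := by omega
  have : Fact p.Prime := ⟨hp⟩
  have hpone : (1 : ℝ) < p := by exact_mod_cast hp.one_lt
  have hqone : (1 : ℝ) < q := by exact_mod_cast (by omega : 1 < q)
  have hlp : 0 < Real.log p := Real.log_pos hpone
  have hlq : 0 < Real.log q := Real.log_pos hqone
  have hlpq : Real.log p ≤ Real.log q :=
    Real.log_le_log (by linarith) (by exact_mod_cast hpq)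
  have hlqp : Real.log q - Real.log 2 ≤ Real.log p := by
    have h1 : Real.log q ≤ Real.log (2 * p) :=
      Real.log_le_log (by linarith) (by exact_mod_cast hqp)
    rw [Real.log_mul (by norm_num) (by linarith)] at h1
    linarith
  have hl2 : 0 < Real.log 2 := Real.log_pos (by norm_num)
  -- the constant
  refine ⟨2 * k / (k * (k + 1)) + 2 + Real.log (2 * k) / Real.log p, ?_⟩
  intro ℓ hkℓ
  have hℓ1 : 1 ≤ ℓ := by omega
  have hℓ' : (0 : ℝ) < ℓ := by exact_mod_cast hℓ1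
  set c : ℝ := 2 * k / (k * (k + 1)) + 2 + Real.log (2 * k) / Real.log p with hc
  have hcpos : 0 ≤ c := by
    have h1 : 0 ≤ Real.log (2 * k) := by
      apply Real.log_nonneg
      have : (1 : ℝ) ≤ k := by exact_mod_cast hk
      linarith
    positivity
  -- parameters
  set τ := (2 * (ℓ - k)) / (k * (k + 1)) with hτ
  set w := Nat.clog p (2 * k * 2 ^ ℓ) with hw
  have hτle : τ * (k * (k + 1)) + 2 * k ≤ 2 * ℓ := by
    have := Nat.div_mul_le_self (2 * (ℓ - k)) (k * (k + 1))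
    rw [← hτ] at this
    omega
  have hτge : 2 * ((ℓ : ℝ) - k) / (k * (k + 1)) - 1 ≤ τ := by
    have hkk' : 0 < k * (k + 1) := by positivity
    have h1 := Nat.lt_div_mul_add (a := 2 * (ℓ - k)) hkk'
    rw [← hτ] at h1
    have h2 : ((2 * (ℓ - k) : ℕ) : ℝ) < ((τ * (k * (k + 1)) + k * (k + 1) : ℕ) : ℝ) := by
      exact_mod_cast h1
    push_cast [Nat.cast_sub hkℓ] at h2
    rw [tsub_le_iff_right, div_le_iff₀ hkk]
    linarith
  have hwle : (w : ℝ) ≤ ℓ * (Real.log 2 / Real.log p) + Real.log (2 * k) / Real.log p + 1 := by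
    have h1 : 1 < 2 * k * 2 ^ ℓ := by
      have : 1 ≤ 2 ^ ℓ := Nat.one_le_two_pow
      nlinarith
    have h2 : 1 ≤ w := Nat.clog_pos hp.one_lt h1
    have h3 := Nat.pow_pred_clog_lt_self hp.one_lt h1
    rw [← hw, Nat.pred_eq_sub_one] at h3
    have h4 : ((p : ℝ)) ^ (w - 1) < 2 * k * 2 ^ ℓ := by exact_mod_cast h3
    have h5 := Real.log_lt_log (by positivity) h4
    rw [Real.log_pow, Real.log_mul (by positivity) (by positivity), Real.log_pow] at h5
    rw [Nat.cast_sub h2] at h5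
    have h6 : ((w : ℝ) - 1) < (Real.log (2 * k) + ℓ * Real.log 2) / Real.log p := by
      rw [lt_div_iff₀ hlp]
      push_cast at h5
      exact h5
    have h7 : (Real.log (2 * k) + ℓ * Real.log 2) / Real.log p =
        ℓ * (Real.log 2 / Real.log p) + Real.log (2 * k) / Real.log p := by
      field_simp
      ring
    linarith
  -- the main inequality: (τ - w) log p ≤ ℓ (log q) rate
  have hmain : ((τ : ℝ) - w) * (Real.log p / Real.log q) ≤ ℓ * rate q ℓ k := by
    rcases Nat.lt_or_ge τ w with hlt | hge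
    · have h1 : ((τ : ℝ) - w) * (Real.log p / Real.log q) ≤ 0 := by
        apply mul_nonpos_of_nonpos_of_nonneg
        · have : (τ : ℝ) < w := by exact_mod_cast hlt
          linarith
        · positivity
      have h2 : 0 ≤ ℓ * rate q ℓ k := mul_nonneg hℓ'.le (rate_nonneg q ℓ k)
      linarith
    · have h1 : 2 * k * (2 ^ ℓ * p ^ (τ - w)) ≤ p ^ τ := by
        have h2 : 2 * k * 2 ^ ℓ ≤ p ^ w := Nat.le_pow_clog hp.one_lt _
        calc 2 * k * (2 ^ ℓ * p ^ (τ - w)) = (2 * k * 2 ^ ℓ) * p ^ (τ - w) := by ring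
          _ ≤ p ^ w * p ^ (τ - w) := Nat.mul_le_mul_right _ h2
          _ = p ^ τ := by rw [← pow_add]; congr 1; omega
      obtain ⟨C, hC, hcard⟩ := exists_linear_code p q hpq (τ - w) ℓ τ k hk hτle h1
      have h2 := le_maxSize C hC
      rw [hcard] at h2
      have h3 : ((p : ℝ)) ^ (τ - w) ≤ maxSize q ℓ k := by exact_mod_cast h2
      have h4 := Real.log_le_log (by positivity) h3
      rw [Real.log_pow, Nat.cast_sub hge] at h4
      unfold rate
      rw [Real.logb, mul_div_cancel₀ _ hℓ'.ne', mul_div_assoc']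
      exact div_le_div_of_nonneg_right h4 hlq.le
  -- conclusion
  have hkey : (2 / (k * (k + 1)) - 2 * Real.log 2 / Real.log q) * ℓ - c ≤ ℓ * rate q ℓ k := by
    refine le_trans ?_ hmain
    have h1 : 2 / (k * (k + 1)) * ℓ - ℓ * (Real.log 2 / Real.log p) - c ≤ (τ : ℝ) - w := by
      have h2 : 2 * ((ℓ : ℝ) - k) / (k * (k + 1)) = 2 / (k * (k + 1)) * ℓ - 2 * k / (k * (k + 1)) := by
        field_simp
      rw [hc]
      linarith
    have hr1 : Real.log p / Real.log q ≤ 1 := by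
      rw [div_le_one hlq]; exact hlpq
    have hr0 : 0 ≤ Real.log p / Real.log q := by positivity
    have hr2 : 1 - Real.log 2 / Real.log q ≤ Real.log p / Real.log q := by
      rw [le_div_iff₀ hlq, sub_mul, div_mul_cancel₀ _ hlq.ne']
      linarith
    have h3 : (2 / (k * (k + 1)) * ℓ - ℓ * (Real.log 2 / Real.log p) - c) *
        (Real.log p / Real.log q) ≤ ((τ : ℝ) - w) * (Real.log p / Real.log q) :=
      mul_le_mul_of_nonneg_right h1 hr0
    refine le_trans ?_ h3
    have h4 : (2 / (k * (k + 1)) * ℓ - ℓ * (Real.log 2 / Real.log p) - c) *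
        (Real.log p / Real.log q) = 2 / (k * (k + 1)) * ℓ * (Real.log p / Real.log q) -
        ℓ * (Real.log 2 / Real.log q) - c * (Real.log p / Real.log q) := by
      have h5 : Real.log 2 / Real.log p * (Real.log p / Real.log q) = Real.log 2 / Real.log q := by
        field_simp
      calc _ = 2 / (k * (k + 1)) * ℓ * (Real.log p / Real.log q) -
            ℓ * (Real.log 2 / Real.log p * (Real.log p / Real.log q)) -
            c * (Real.log p / Real.log q) := by ring
        _ = _ := by rw [h5]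
    rw [h4]
    have h5 : c * (Real.log p / Real.log q) ≤ c := by
      have := mul_le_mul_of_nonneg_left hr1 hcpos
      linarith
    have h6 : 2 / (k * (k + 1)) * ℓ * (1 - Real.log 2 / Real.log q) ≤
        2 / (k * (k + 1)) * ℓ * (Real.log p / Real.log q) :=
      mul_le_mul_of_nonneg_left hr2 (by positivity)
    have h7 : 2 / ((k : ℝ) * (k + 1)) ≤ 1 := by
      rw [div_le_one hkk]; exact hkk2
    have h8 : 2 / (k * (k + 1)) * ℓ * (Real.log 2 / Real.log q) ≤
        1 * ℓ * (Real.log 2 / Real.log q) := by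
      apply mul_le_mul_of_nonneg_right _ (by positivity)
      exact mul_le_mul_of_nonneg_right h7 hℓ'.le
    have h9 : 2 * Real.log 2 / Real.log q = 2 * (Real.log 2 / Real.log q) := by ring
    rw [h9]
    nlinarith [h5, h6, h8]
  have hfin : (2 / (k * (k + 1)) - 2 * Real.log 2 / Real.log q - c / ℓ) * ℓ ≤ rate q ℓ k * ℓ := by
    rw [sub_mul, div_mul_cancel₀ _ hℓ'.ne']
    linarith
  exact le_of_mul_le_mul_right hfin hℓ'

/-- For all `k ≥ 1` and `q ≥ 2`,
`2 / (k (k + 1)) - 2 log 2 / log q ≤ liminf_{ℓ → ∞} R(q, ℓ, k)` and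
`limsup_{ℓ → ∞} R(q, ℓ, k) ≤ 2 / (k (k + 1))`. -/
theorem result (k q : ℕ) (hk : 1 ≤ k) (hq : 2 ≤ q) :
    2 / ((k : ℝ) * (k + 1)) - 2 * Real.log 2 / Real.log q ≤
        liminf (fun ℓ : ℕ => rate q ℓ k) atTop ∧
      limsup (fun ℓ : ℕ => rate q ℓ k) atTop ≤ 2 / ((k : ℝ) * (k + 1)) := by
  constructor
  · obtain ⟨c, hc⟩ := rate_lower k q hk hq
    have hlim : Tendsto (fun ℓ : ℕ => 2 / ((k : ℝ) * (k + 1)) - 2 * Real.log 2 / Real.log q -
        c / (ℓ : ℝ)) atTop (𝓝 (2 / ((k : ℝ) * (k + 1)) - 2 * Real.log 2 / Real.log q - 0)) :=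
      tendsto_const_nhds.sub (tendsto_natCast_atTop_atTop.const_div_atTop c)
    rw [sub_zero] at hlim
    rw [← hlim.liminf_eq]
    apply liminf_le_liminf
    · filter_upwards [eventually_ge_atTop k] with ℓ hℓ
      exact hc ℓ hℓ
    · exact hlim.isBoundedUnder_ge
    · exact (bddAbove_rate q k).isCoboundedUnder_ge
  · have hlim : Tendsto (fun ℓ : ℕ => 2 / ((k : ℝ) * (k + 1)) +
        (2 + Real.log ((k : ℝ) + k * (k + 1)) / Real.log q) / (ℓ : ℝ)) atTop
        (𝓝 (2 / ((k : ℝ) * (k + 1)) + 0)) :=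
      tendsto_const_nhds.add (tendsto_natCast_atTop_atTop.const_div_atTop _)
    rw [add_zero] at hlim
    rw [← hlim.limsup_eq]
    apply limsup_le_limsup
    · filter_upwards [eventually_ge_atTop 1] with ℓ hℓ
      exact rate_upper k ℓ q hk hℓ hq
    · exact (bddBelow_rate q k).isCoboundedUnder_le
    · exact hlim.isBoundedUnder_le

end Pool.Agent.Results.MP_96bab1_co.FixedAlphabetBounds
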